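import Pool.Agent.helper40.TW.SpecG

set_option autoImplicit false

open Complex MeasureTheory Metric
open scoped ComplexConjugate ArithmeticFunction.vonMangoldt

namespace Pool.Agent.TWG

open Pool.Agent.helper6.LD (wt)
open Pool.Agent.helper85.BVP (ex)
open Pool.Agent.TW (Win Pw)

theorem GLM_J (δ a b : ℝ) :
    Integrable (fun u : ℝ => if |a - u| ≤ δ ∧ |b - u| ≤ δ then (1 : ℝ) else 0) ∧
    ∫ u : ℝ, (if |a - u| ≤ δ ∧ |b - u| ≤ δ then (1 : ℝ) else 0) = max 0 (2 * δ - |a - b|) := by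
  have he : (fun u : ℝ => if |a - u| ≤ δ ∧ |b - u| ≤ δ then (1 : ℝ) else 0) =
      (Set.Icc (max a b - δ) (min a b + δ)).indicator (1 : ℝ → ℝ) := by
    funext u
    rw [Set.indicator_apply, Pi.one_apply]
    have hiff : (|a - u| ≤ δ ∧ |b - u| ≤ δ) ↔ u ∈ Set.Icc (max a b - δ) (min a b + δ) := by
      rw [Set.mem_Icc, abs_le, abs_le]
      constructor
      · rintro ⟨⟨h1, h2⟩, h3, h4⟩
        have h5 : max a b ≤ u + δ := max_le (by linarith) (by linarith)
        have h6 : u - δ ≤ min a b := le_min (by linarith) (by linarith)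
        exact ⟨by linarith, by linarith⟩
      · rintro ⟨h1, h2⟩
        have h3 := le_max_left a b
        have h4 := le_max_right a b
        have h5 := min_le_left a b
        have h6 := min_le_right a b
        exact ⟨⟨by linarith, by linarith⟩, by linarith, by linarith⟩
    by_cases hu : |a - u| ≤ δ ∧ |b - u| ≤ δ
    · rw [if_pos hu, if_pos (hiff.1 hu)]
    · rw [if_neg hu, if_neg (fun h => hu (hiff.2 h))]
  rw [he]
  constructor
  · rw [integrable_indicator_iff measurableSet_Icc]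
    exact integrableOn_const (by simp) (by simp)
  · rw [integral_indicator_one measurableSet_Icc, Real.volume_real_Icc, max_comm]
    have h1 := max_sub_min_eq_abs a b
    congr 1
    rw [abs_sub_comm a b, ← h1]
    ring

theorem GLM_sq (S : Finset ℕ) (F : ℕ → ℂ) :
    ((‖∑ n ∈ S, F n‖ ^ 2 : ℝ) : ℂ) = ∑ m ∈ S, ∑ n ∈ S, F m * conj (F n) := by
  rw [← Finset.sum_mul_sum, ← map_sum, Complex.mul_conj']
  push_cast
  rfl

open Classical in
theorem GLM_D (δ : ℝ) (S : Finset ℕ) (c : ℕ → ℂ) :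
    Integrable (fun u : ℝ => ‖∑ n ∈ S.filter (fun n : ℕ => |Real.log n - u| ≤ δ), c n‖ ^ 2) ∧
    ((∫ u : ℝ, ‖∑ n ∈ S.filter (fun n : ℕ => |Real.log n - u| ≤ δ), c n‖ ^ 2 : ℝ) : ℂ) =
      ∑ m ∈ S, ∑ n ∈ S, c m * conj (c n) * ((max 0 (2 * δ - |Real.log m - Real.log n|) : ℝ) : ℂ) := by
  have he : ∀ u : ℝ, ((‖∑ n ∈ S.filter (fun n : ℕ => |Real.log n - u| ≤ δ), c n‖ ^ 2 : ℝ) : ℂ) =
      ∑ m ∈ S, ∑ n ∈ S, c m * conj (c n) *
        ((if |Real.log m - u| ≤ δ ∧ |Real.log n - u| ≤ δ then (1 : ℝ) else 0 : ℝ) : ℂ) := by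
    intro u
    rw [Finset.sum_filter, GLM_sq]
    apply Finset.sum_congr rfl
    intro m _
    apply Finset.sum_congr rfl
    intro n _
    by_cases h1 : |Real.log m - u| ≤ δ
    · by_cases h2 : |Real.log n - u| ≤ δ
      · simp [h1, h2]
      · simp [h1, h2]
    · simp [h1]
  have hint : ∀ m n : ℕ, Integrable (fun u : ℝ => c m * conj (c n) *
      ((if |Real.log m - u| ≤ δ ∧ |Real.log n - u| ≤ δ then (1 : ℝ) else 0 : ℝ) : ℂ)) := by
    intro m n
    exact ((GLM_J δ (Real.log m) (Real.log n)).1.ofReal).const_mul _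
  have hintS : Integrable (fun u : ℝ => ((‖∑ n ∈ S.filter (fun n : ℕ => |Real.log n - u| ≤ δ), c n‖ ^ 2 : ℝ) : ℂ)) := by
    have : (fun u : ℝ => ((‖∑ n ∈ S.filter (fun n : ℕ => |Real.log n - u| ≤ δ), c n‖ ^ 2 : ℝ) : ℂ)) =
        fun u => ∑ m ∈ S, ∑ n ∈ S, c m * conj (c n) *
        ((if |Real.log m - u| ≤ δ ∧ |Real.log n - u| ≤ δ then (1 : ℝ) else 0 : ℝ) : ℂ) := funext he
    rw [this]
    exact integrable_finsetSum _ fun m _ => integrable_finsetSum _ fun n _ => hint m n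
  constructor
  · have h1 := hintS.re
    exact h1
  · rw [← integral_complex_ofReal]
    simp_rw [he]
    rw [integral_finsetSum _ fun m _ => integrable_finsetSum _ fun n _ => hint m n]
    apply Finset.sum_congr rfl
    intro m _
    rw [integral_finsetSum _ fun n _ => hint m n]
    apply Finset.sum_congr rfl
    intro n _
    rw [integral_const_mul, integral_complex_ofReal, (GLM_J δ (Real.log m) (Real.log n)).2]

theorem GLM_B (hTRI : TRI_stmt) (h : ℝ) (hh : 0 < h) (S : Finset ℕ) (c : ℕ → ℂ) :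
    Integrable (fun v : ℝ => tau h v * ‖∑ n ∈ S, c n * Complex.exp (((-(v * Real.log n) : ℝ) : ℂ) * I)‖ ^ 2) ∧
    ((∫ v : ℝ, tau h v * ‖∑ n ∈ S, c n * Complex.exp (((-(v * Real.log n) : ℝ) : ℂ) * I)‖ ^ 2 : ℝ) : ℂ) =
      ∑ m ∈ S, ∑ n ∈ S, c m * conj (c n) * (2 * Real.pi * ((tri h (Real.log n - Real.log m) : ℝ) : ℂ)) := by
  obtain ⟨_, hint0, _, _, _, hfor⟩ := hTRI h hh
  have hpi : (2 * Real.pi : ℂ) ≠ 0 := by
    have : (Real.pi : ℂ) ≠ 0 := Complex.ofReal_ne_zero.2 Real.pi_ne_zero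
    exact mul_ne_zero two_ne_zero this
  have he : ∀ v : ℝ, ((tau h v * ‖∑ n ∈ S, c n * Complex.exp (((-(v * Real.log n) : ℝ) : ℂ) * I)‖ ^ 2 : ℝ) : ℂ) =
      ∑ m ∈ S, ∑ n ∈ S, c m * conj (c n) *
        ((tau h v : ℂ) * Complex.exp (((v * (Real.log n - Real.log m) : ℝ) : ℂ) * I)) := by
    intro v
    rw [Complex.ofReal_mul, GLM_sq, Finset.mul_sum]
    apply Finset.sum_congr rfl
    intro m _
    rw [Finset.mul_sum]
    apply Finset.sum_congr rfl
    intro n _
    rw [map_mul, ← Complex.exp_conj, map_mul, Complex.conj_I, Complex.conj_ofReal]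
    have h1 : Complex.exp (((v * (Real.log n - Real.log m) : ℝ) : ℂ) * I) =
        Complex.exp (((-(v * Real.log m) : ℝ) : ℂ) * I) * Complex.exp (((-(v * Real.log n) : ℝ) : ℂ) * -I) := by
      rw [← Complex.exp_add]
      congr 1
      push_cast
      ring
    rw [h1]
    ring
  have hint : ∀ m n : ℕ, Integrable (fun v : ℝ => c m * conj (c n) *
        ((tau h v : ℂ) * Complex.exp (((v * (Real.log n - Real.log m) : ℝ) : ℂ) * I))) := by
    intro m n
    apply Integrable.const_mul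
    refine Integrable.mono' hint0.norm ?_ (Filter.Eventually.of_forall fun v => ?_)
    · apply AEStronglyMeasurable.mul hint0.ofReal.aestronglyMeasurable
      apply Continuous.aestronglyMeasurable
      fun_prop
    · rw [norm_mul, Complex.norm_exp_ofReal_mul_I, mul_one, Complex.norm_real]
  have hintS : Integrable (fun v : ℝ =>
      ((tau h v * ‖∑ n ∈ S, c n * Complex.exp (((-(v * Real.log n) : ℝ) : ℂ) * I)‖ ^ 2 : ℝ) : ℂ)) := by
    have : (fun v : ℝ =>
      ((tau h v * ‖∑ n ∈ S, c n * Complex.exp (((-(v * Real.log n) : ℝ) : ℂ) * I)‖ ^ 2 : ℝ) : ℂ)) =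
        fun v => ∑ m ∈ S, ∑ n ∈ S, c m * conj (c n) *
        ((tau h v : ℂ) * Complex.exp (((v * (Real.log n - Real.log m) : ℝ) : ℂ) * I)) := funext he
    rw [this]
    exact integrable_finsetSum _ fun m _ => integrable_finsetSum _ fun n _ => hint m n
  constructor
  · have h1 := hintS.re
    exact h1
  · rw [← integral_complex_ofReal]
    simp_rw [he]
    rw [integral_finsetSum _ fun m _ => integrable_finsetSum _ fun n _ => hint m n]
    apply Finset.sum_congr rfl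
    intro m _
    rw [integral_finsetSum _ fun n _ => hint m n]
    apply Finset.sum_congr rfl
    intro n _
    rw [integral_const_mul, hfor, ← mul_assoc (2 * (Real.pi : ℂ)), mul_one_div_cancel hpi, one_mul]

theorem GLM_pow (n : ℕ) (hn : 0 < n) (v : ℝ) :
    (n : ℂ) ^ (-(v * I)) = Complex.exp (((-(v * Real.log n) : ℝ) : ℂ) * I) := by
  rw [Complex.cpow_def_of_ne_zero (by exact_mod_cast hn.ne'), ← Complex.natCast_log]
  congr 1
  push_cast
  ring

theorem GLM_tri (T x : ℝ) (hT : 0 < T) :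
    max 0 (2 * (1 / (2 * T)) - |x|) = 1 / T * tri (1 / T) x := by
  unfold tri
  rw [mul_max_of_nonneg _ _ (by positivity : (0 : ℝ) ≤ 1 / T), mul_zero]
  congr 1
  field_simp

theorem GLM (hTRI : TRI_stmt) : GLM_stmt := by
  classical
  intro T S c hT hS
  have hT0 : 0 < T := by linarith
  have hh : 0 < 1 / T := by positivity
  obtain ⟨hD1, hD2⟩ := GLM_D (1 / (2 * T)) S c
  obtain ⟨hB1, hB2⟩ := GLM_B hTRI (1 / T) hh S c
  obtain ⟨hcont, _, _, hb, hlow, _⟩ := hTRI (1 / T) hh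
  refine ⟨hD1, ?_⟩
  have hBD : ∫ v : ℝ, tau (1 / T) v * ‖∑ n ∈ S, c n * Complex.exp (((-(v * Real.log n) : ℝ) : ℂ) * I)‖ ^ 2 =
      2 * Real.pi * T * ∫ u : ℝ, ‖∑ n ∈ S.filter (fun n : ℕ => |Real.log n - u| ≤ 1 / (2 * T)), c n‖ ^ 2 := by
    have h1 : ((∫ v : ℝ, tau (1 / T) v *
        ‖∑ n ∈ S, c n * Complex.exp (((-(v * Real.log n) : ℝ) : ℂ) * I)‖ ^ 2 : ℝ) : ℂ) =
        ((2 * Real.pi * T * ∫ u : ℝ, ‖∑ n ∈ S.filter (fun n : ℕ => |Real.log n - u| ≤ 1 / (2 * T)), c n‖ ^ 2 : ℝ) : ℂ) := by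
      rw [hB2, Complex.ofReal_mul, hD2, Finset.mul_sum]
      apply Finset.sum_congr rfl
      intro m _
      rw [Finset.mul_sum]
      apply Finset.sum_congr rfl
      intro n _
      rw [GLM_tri T _ hT0]
      have h2 : tri (1 / T) (Real.log n - Real.log m) = tri (1 / T) (Real.log m - Real.log n) := by
        unfold tri
        rw [abs_sub_comm]
      rw [h2]
      have hTc : (T : ℂ) ≠ 0 := Complex.ofReal_ne_zero.2 hT0.ne'
      push_cast
      field_simp
    exact Complex.ofReal_injective h1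
  have hf : ∀ v : ℝ, ∑ n ∈ S, c n * (n : ℂ) ^ (-(v * I)) =
      ∑ n ∈ S, c n * Complex.exp (((-(v * Real.log n) : ℝ) : ℂ) * I) := by
    intro v
    apply Finset.sum_congr rfl
    intro n hn
    rw [GLM_pow n (hS n hn) v]
  simp_rw [hf]
  have hfc : Continuous (fun v : ℝ => ‖∑ n ∈ S, c n * Complex.exp (((-(v * Real.log n) : ℝ) : ℂ) * I)‖ ^ 2) := by
    fun_prop
  have h1 : ∫ v in (-T)..T, ‖∑ n ∈ S, c n * Complex.exp (((-(v * Real.log n) : ℝ) : ℂ) * I)‖ ^ 2 ≤
      ∫ v in (-T)..T, 2 * T * (tau (1 / T) v *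
        ‖∑ n ∈ S, c n * Complex.exp (((-(v * Real.log n) : ℝ) : ℂ) * I)‖ ^ 2) := by
    apply intervalIntegral.integral_mono_on (by linarith) (hfc.intervalIntegrable _ _)
    · apply Continuous.intervalIntegrable
      exact continuous_const.mul (hcont.mul hfc)
    · intro v hv
      have h2 : |v| ≤ 1 / (1 / T) := by
        rw [one_div_one_div, abs_le]
        exact ⟨hv.1, hv.2⟩
      have h3 := hlow v h2
      have h4 : 1 ≤ 2 * T * tau (1 / T) v := by
        have h5 : 2 * T * (1 / T / 2) = 1 := by field_simp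
        calc (1 : ℝ) = 2 * T * (1 / T / 2) := h5.symm
          _ ≤ 2 * T * tau (1 / T) v := mul_le_mul_of_nonneg_left h3 (by positivity)
      calc ‖∑ n ∈ S, c n * Complex.exp (((-(v * Real.log n) : ℝ) : ℂ) * I)‖ ^ 2
          = 1 * ‖∑ n ∈ S, c n * Complex.exp (((-(v * Real.log n) : ℝ) : ℂ) * I)‖ ^ 2 := (one_mul _).symm
        _ ≤ (2 * T * tau (1 / T) v) * ‖∑ n ∈ S, c n * Complex.exp (((-(v * Real.log n) : ℝ) : ℂ) * I)‖ ^ 2 :=
            mul_le_mul_of_nonneg_right h4 (by positivity)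
        _ = _ := by ring
  refine h1.trans ?_
  rw [intervalIntegral.integral_const_mul, intervalIntegral.integral_of_le (by linarith)]
  have h2 : ∫ v in Set.Ioc (-T) T, tau (1 / T) v *
        ‖∑ n ∈ S, c n * Complex.exp (((-(v * Real.log n) : ℝ) : ℂ) * I)‖ ^ 2 ≤
      ∫ v : ℝ, tau (1 / T) v * ‖∑ n ∈ S, c n * Complex.exp (((-(v * Real.log n) : ℝ) : ℂ) * I)‖ ^ 2 := by
    apply setIntegral_le_integral hB1
    apply Filter.Eventually.of_forall
    intro v
    exact mul_nonneg (hb v).1 (by positivity)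
  calc 2 * T * ∫ v in Set.Ioc (-T) T, tau (1 / T) v *
        ‖∑ n ∈ S, c n * Complex.exp (((-(v * Real.log n) : ℝ) : ℂ) * I)‖ ^ 2
      ≤ 2 * T * (2 * Real.pi * T * ∫ u : ℝ, ‖∑ n ∈ S.filter (fun n : ℕ => |Real.log n - u| ≤ 1 / (2 * T)), c n‖ ^ 2) := by
        rw [← hBD]
        exact mul_le_mul_of_nonneg_left h2 (by positivity)
    _ = _ := by ring

end Pool.Agent.TWG
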