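import Pool.Agent.helper40.TW.SpecG
import Pool.Agent.helper53.BP.THF
import Pool.Agent.helper98.SK.THB
import Pool.Agent.helper88.SK.TRB

set_option autoImplicit false

open Complex MeasureTheory Metric
open scoped ComplexConjugate ArithmeticFunction.vonMangoldt

namespace Pool.Agent.TWG

open Pool.Agent.helper6.LD (wt)
open Pool.Agent.helper85.BVP (ex)
open Pool.Agent.TW (Win Pw)
open Pool.Agent.SK (tr0 Th)

theorem TRI_prim (α β w : ℂ) (hw : w ≠ 0) (x : ℝ) :
    HasDerivAt (fun y : ℝ => (α + β * (y : ℂ)) * Complex.exp (w * y) / w - β * Complex.exp (w * y) / w ^ 2)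
      ((α + β * (x : ℂ)) * Complex.exp (w * x)) x := by
  have h0 : HasDerivAt (fun y : ℝ => (y : ℂ)) 1 x := Complex.ofRealCLM.hasDerivAt
  have h1 : HasDerivAt (fun y : ℝ => Complex.exp (w * (y : ℂ))) (Complex.exp (w * (x : ℂ)) * (w * 1)) x :=
    (h0.const_mul w).cexp
  have h2 : HasDerivAt (fun y : ℝ => α + β * (y : ℂ)) (β * 1) x := (h0.const_mul β).const_add α
  have h3 := ((h2.mul h1).div_const w).sub ((h1.const_mul β).div_const (w ^ 2))
  refine h3.congr_deriv ?_
  field_simp
  ring

theorem TRI_int (α β w : ℂ) (hw : w ≠ 0) (a b : ℝ) :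
    ∫ x in a..b, (α + β * (x : ℂ)) * Complex.exp (w * x) =
      ((α + β * (b : ℂ)) * Complex.exp (w * b) / w - β * Complex.exp (w * b) / w ^ 2) -
      ((α + β * (a : ℂ)) * Complex.exp (w * a) / w - β * Complex.exp (w * a) / w ^ 2) := by
  apply intervalIntegral.integral_eq_sub_of_hasDerivAt
    (f := fun y : ℝ => (α + β * (y : ℂ)) * Complex.exp (w * y) / w - β * Complex.exp (w * y) / w ^ 2)
  · intro x _
    exact TRI_prim α β w hw x
  · apply Continuous.intervalIntegrable
    fun_prop

theorem TRI_val (δ t : ℝ) (hδ : 0 < δ) (ht : t ≠ 0) (h0 : ∀ x, δ ≤ |x - 0| → tr0 0 δ x = 0)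
    (hL : Continuous (tr0 0 δ)) :
    Th δ t = (Complex.exp (-(t : ℂ) * Complex.I * δ) + Complex.exp (-(-(t : ℂ) * Complex.I * δ)) - 2) /
      (δ * (-(t : ℂ) * Complex.I) ^ 2) := by
  obtain ⟨w, hw⟩ : ∃ w : ℂ, w = -(t : ℂ) * Complex.I := ⟨_, rfl⟩
  have hw0 : w ≠ 0 := by
    rw [hw]
    exact mul_ne_zero (neg_ne_zero.2 (Complex.ofReal_ne_zero.2 ht)) Complex.I_ne_zero
  have hδc : (δ : ℂ) ≠ 0 := Complex.ofReal_ne_zero.2 hδ.ne'
  rw [← hw]
  have he : ∀ x : ℝ, ((tr0 0 δ x : ℝ) : ℂ) * Complex.exp (((-(t * x) : ℝ) : ℂ) * Complex.I) =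
      ((tr0 0 δ x : ℝ) : ℂ) * Complex.exp (w * x) := by
    intro x
    rw [hw]
    congr 2
    push_cast
    ring
  unfold Th
  simp_rw [he]
  have hsup : Function.support (fun x : ℝ => ((tr0 0 δ x : ℝ) : ℂ) * Complex.exp (w * x)) ⊆
      Set.Ioc (-δ) δ := by
    intro x hx
    rw [Function.mem_support] at hx
    by_contra hc
    apply hx
    have : tr0 0 δ x = 0 := by
      apply h0
      rw [sub_zero, le_abs]
      rw [Set.mem_Ioc, not_and_or, not_lt, not_le] at hc
      rcases hc with hc | hc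
      · right; linarith
      · left; linarith
    rw [this]
    simp
  rw [← intervalIntegral.integral_eq_integral_of_support_subset hsup]
  have hcont : Continuous (fun x : ℝ => ((tr0 0 δ x : ℝ) : ℂ) * Complex.exp (w * x)) := by
    fun_prop
  rw [← intervalIntegral.integral_add_adjacent_intervals (b := 0) (hcont.intervalIntegrable _ _)
    (hcont.intervalIntegrable _ _)]
  have i1 : ∫ x in (-δ)..0, ((tr0 0 δ x : ℝ) : ℂ) * Complex.exp (w * x) =
      ∫ x in (-δ)..0, ((1 : ℂ) + (1 / δ : ℂ) * (x : ℂ)) * Complex.exp (w * x) := by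
    apply intervalIntegral.integral_congr
    intro x hx
    rw [Set.uIcc_of_le (by linarith)] at hx
    have h1 : tr0 0 δ x = 1 + 1 / δ * x := by
      unfold tr0
      rw [sub_zero, abs_of_nonpos hx.2, max_eq_right]
      · field_simp; ring
      · rw [sub_nonneg, div_le_one hδ]; linarith [hx.1]
    beta_reduce
    rw [h1]
    push_cast
    ring
  have i2 : ∫ x in (0)..δ, ((tr0 0 δ x : ℝ) : ℂ) * Complex.exp (w * x) =
      ∫ x in (0)..δ, ((1 : ℂ) + (-(1 / δ) : ℂ) * (x : ℂ)) * Complex.exp (w * x) := by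
    apply intervalIntegral.integral_congr
    intro x hx
    rw [Set.uIcc_of_le (by linarith)] at hx
    have h1 : tr0 0 δ x = 1 + -(1 / δ) * x := by
      unfold tr0
      rw [sub_zero, abs_of_nonneg hx.1, max_eq_right]
      · field_simp; ring
      · rw [sub_nonneg, div_le_one hδ]; linarith [hx.2]
    beta_reduce
    rw [h1]
    push_cast
    ring
  rw [i1, i2, TRI_int _ _ w hw0, TRI_int _ _ w hw0]
  have e1 : w * ((-δ : ℝ) : ℂ) = -(w * δ) := by push_cast; ring
  rw [e1]
  simp only [Complex.ofReal_zero, mul_zero, Complex.exp_zero, Complex.ofReal_neg]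
  field_simp
  ring

/-- `Th h = tau h` -/
theorem TRI_tau (h : ℝ) (hh : 0 < h) (v : ℝ) : Th h v = ((tau h v : ℝ) : ℂ) := by
  obtain ⟨_, a2, _, _, a5, _⟩ := SK.TRB 0 h hh
  have hcont : Continuous (tr0 0 h) := by
    unfold tr0
    fun_prop
  unfold tau
  split_ifs with hv
  · rw [hv]
    unfold Th
    have e : ∀ x : ℝ, ((tr0 0 h x : ℝ) : ℂ) * Complex.exp (((-(0 * x) : ℝ) : ℂ) * Complex.I) =
        ((tr0 0 h x : ℝ) : ℂ) := by
      intro x
      simp
    simp_rw [e]
    rw [integral_complex_ofReal, a5]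
  · rw [TRI_val h v hh hv a2 hcont]
    have e1 : Complex.exp (-(v : ℂ) * Complex.I * h) + Complex.exp (-(-(v : ℂ) * Complex.I * h)) =
        2 * Complex.cos ((h * v : ℝ) : ℂ) := by
      rw [Complex.two_cos]
      rw [add_comm]
      push_cast
      congr 1
      · congr 1
        ring
      · congr 1
        ring
    rw [e1]
    have hh' : (h : ℂ) ≠ 0 := Complex.ofReal_ne_zero.2 hh.ne'
    have hv' : (v : ℂ) ≠ 0 := Complex.ofReal_ne_zero.2 hv
    push_cast
    rw [mul_pow, neg_pow, Complex.I_sq]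
    field_simp
    ring

theorem TRI : TRI_stmt := by
  intro h hh
  have hTRB := SK.TRB
  have hTHB := SK.THB hTRB
  obtain ⟨hint, hinv⟩ := BP.THF hTRB hTHB h hh
  obtain ⟨-, -, -, hc⟩ := hTHB h hh
  have hTh : Th h = fun v => ((tau h v : ℝ) : ℂ) := funext fun v => TRI_tau h hh v
  rw [hTh] at hint hc
  have hcr : Continuous (tau h) := by
    have h1 := Complex.continuous_re.comp hc
    have h2 : (Complex.re ∘ fun v => ((tau h v : ℝ) : ℂ)) = tau h := by
      funext v
      simp
    rwa [h2] at h1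
  have hir : Integrable (tau h) := by
    have h1 := hint.re
    have h2 : (fun v => RCLike.re ((tau h v : ℝ) : ℂ)) = tau h := by
      funext v
      simp
    rwa [h2] at h1
  have hfor : ∀ x : ℝ, ((tri h x : ℝ) : ℂ) = 1 / (2 * Real.pi) *
      ∫ v : ℝ, (tau h v : ℂ) * Complex.exp (((v * x : ℝ) : ℂ) * I) := by
    intro x
    have h1 := hinv 0 x
    have h2 : tr0 0 h x = tri h x := by
      unfold tr0 tri
      rw [sub_zero]
    rw [h2, sub_zero, hTh] at h1
    exact h1
  refine ⟨hcr, hir, ?_, ?_, ?_, hfor⟩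
  · have h1 := hfor 0
    have h2 : tri h 0 = 1 := by
      unfold tri
      simp
    have h3 : ∀ v : ℝ, (tau h v : ℂ) * Complex.exp (((v * 0 : ℝ) : ℂ) * I) = (tau h v : ℂ) := by
      intro v
      simp
    simp_rw [h3] at h1
    rw [h2, integral_complex_ofReal] at h1
    have h4 : (1 : ℝ) = 1 / (2 * Real.pi) * ∫ v : ℝ, tau h v := by
      have h5 : ((1 : ℝ) : ℂ) = ((1 / (2 * Real.pi) * ∫ v : ℝ, tau h v : ℝ) : ℂ) := by
        rw [h1]
        push_cast
        rfl
      exact Complex.ofReal_injective h5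
    have hpi : (0 : ℝ) < 2 * Real.pi := by positivity
    field_simp at h4
    linarith
  · intro v
    by_cases hv : v = 0
    · subst hv
      unfold tau
      simp only [if_true]
      refine ⟨hh.le, le_refl _, ?_⟩
      norm_num
    · have hv2 : 0 < v ^ 2 := by positivity
      have hd : 0 < h * v ^ 2 := by positivity
      have ht : tau h v = 2 * (1 - Real.cos (h * v)) / (h * v ^ 2) := by
        unfold tau
        rw [if_neg hv]
      have hc1 := Real.cos_le_one (h * v)
      have hc2 := Real.neg_one_le_cos (h * v)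
      have hc3 := Real.one_sub_sq_div_two_le_cos (x := h * v)
      rw [ht]
      refine ⟨?_, ?_, ?_⟩
      · apply div_nonneg _ hd.le
        linarith
      · rw [div_le_iff₀ hd]
        nlinarith
      · rw [div_mul_cancel₀ _ hd.ne']
        linarith
  · intro v hv
    by_cases hv0 : v = 0
    · subst hv0
      unfold tau
      simp only [if_true]
      linarith
    · have hd : 0 < h * v ^ 2 := by positivity
      have ht : tau h v = 2 * (1 - Real.cos (h * v)) / (h * v ^ 2) := by
        unfold tau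
        rw [if_neg hv0]
      have hx : |h * v| ≤ 1 := by
        rw [abs_mul, abs_of_pos hh]
        rw [le_div_iff₀ hh] at hv
        linarith
      have hb := Real.cos_bound hx
      have hb2 := (abs_le.1 hb).2
      have h4 : |h * v| ^ 4 ≤ |h * v| ^ 2 := pow_le_pow_of_le_one (abs_nonneg _) hx (by norm_num)
      rw [sq_abs] at h4
      rw [ht, le_div_iff₀ hd]
      nlinarith

end Pool.Agent.TWG
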